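import Pool.Agent.H705.RO.Stm

/-! # The second moment method for events -/

set_option autoImplicit false

namespace Pool.Agent.H618.RO

open MeasureTheory ProbabilityTheory Filter Topology Finset
open Pool.Agent.H705.RO

/-- **SEC.** -/
theorem T_SEC : P_SEC := by
  intro Ω _ P _ K A q η hK hq hη hA hPA hPAA
  obtain ⟨m, hm⟩ : ∃ m : ℝ, m = K * q := ⟨_, rfl⟩
  have hK0 : (1 : ℝ) ≤ K := by exact_mod_cast hK
  have hm0 : 0 < m := by rw [hm]; positivity
  obtain ⟨f, hf⟩ : ∃ f : ℕ → Ω → ℝ, f = fun k => (A k).indicator (fun _ => (1 : ℝ)) := ⟨_, rfl⟩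
  have hreal : ∀ k < K, P.real (A k) = q := by
    intro k hk
    rw [Measure.real, hPA k hk, ENNReal.toReal_ofReal hq.le]
  have hfi : ∀ k ∈ range K, Integrable (f k) P := by
    intro k hk
    rw [hf]
    exact (integrable_const 1).indicator (hA k (Finset.mem_range.1 hk))
  have hfI : ∀ k ∈ range K, ∫ ω, f k ω ∂P = q := by
    intro k hk
    have hk' := Finset.mem_range.1 hk
    rw [hf]
    simp only
    rw [integral_indicator_const _ (hA k hk'), hreal k hk', smul_eq_mul, mul_one]
  have hff : ∀ j k ω, f j ω * f k ω = (A j ∩ A k).indicator (fun _ => (1 : ℝ)) ω := by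
    intro j k ω
    rw [hf]
    simp only [Set.indicator_apply, Set.mem_inter_iff]
    by_cases h1 : ω ∈ A j <;> by_cases h2 : ω ∈ A k <;> simp [h1, h2]
  have hffi : ∀ j ∈ range K, ∀ k ∈ range K, Integrable (fun ω => f j ω * f k ω) P := by
    intro j hj k hk
    simp only [hff]
    exact (integrable_const 1).indicator
      ((hA j (Finset.mem_range.1 hj)).inter (hA k (Finset.mem_range.1 hk)))
  have hffI : ∀ j ∈ range K, ∀ k ∈ range K, ∫ ω, f j ω * f k ω ∂P = P.real (A j ∩ A k) := by
    intro j hj k hk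
    simp only [hff]
    rw [integral_indicator_const _
      ((hA j (Finset.mem_range.1 hj)).inter (hA k (Finset.mem_range.1 hk))), smul_eq_mul, mul_one]
  obtain ⟨Z, hZ⟩ : ∃ Z : Ω → ℝ, Z = fun ω => ∑ k ∈ range K, f k ω := ⟨_, rfl⟩
  have hZi : Integrable Z P := by
    rw [hZ]
    exact integrable_finsetSum _ hfi
  have hZI : ∫ ω, Z ω ∂P = m := by
    rw [hZ]
    simp only
    rw [integral_finsetSum _ hfi, Finset.sum_congr rfl hfI, Finset.sum_const, Finset.card_range,
      nsmul_eq_mul, hm]
  have hZ2 : ∀ ω, Z ω ^ 2 = ∑ j ∈ range K, ∑ k ∈ range K, f j ω * f k ω := by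
    intro ω
    rw [hZ]
    simp only
    rw [pow_two, Finset.sum_mul_sum]
  have hZ2i : Integrable (fun ω => Z ω ^ 2) P := by
    simp only [hZ2]
    exact integrable_finsetSum _ fun j hj => integrable_finsetSum _ fun k hk => hffi j hj k hk
  have hZ2I : ∫ ω, Z ω ^ 2 ∂P ≤ m + m ^ 2 * (1 + η) := by
    simp only [hZ2]
    rw [integral_finsetSum _ fun j hj => integrable_finsetSum _ fun k hk => hffi j hj k hk]
    have h1 : ∀ j ∈ range K, ∫ ω, ∑ k ∈ range K, f j ω * f k ω ∂P ≤
        q + K * (q ^ 2 * (1 + η)) := by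
      intro j hj
      rw [integral_finsetSum _ fun k hk => hffi j hj k hk]
      have h2 : ∀ k ∈ range K, ∫ ω, f j ω * f k ω ∂P ≤
          (if k = j then q else 0) + q ^ 2 * (1 + η) := by
        intro k hk
        rw [hffI j hj k hk]
        by_cases hkj : k = j
        · rw [if_pos hkj, hkj, Set.inter_self, hreal j (Finset.mem_range.1 hj)]
          have : 0 ≤ q ^ 2 * (1 + η) := by positivity
          linarith
        · rw [if_neg hkj, zero_add, Measure.real]
          refine ENNReal.toReal_le_of_le_ofReal (by positivity) ?_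
          exact hPAA j (Finset.mem_range.1 hj) k (Finset.mem_range.1 hk) (Ne.symm hkj)
      refine (Finset.sum_le_sum h2).trans (le_of_eq ?_)
      rw [Finset.sum_add_distrib, Finset.sum_ite_eq' (range K) j (fun _ => q), if_pos hj,
        Finset.sum_const, Finset.card_range, nsmul_eq_mul]
    refine (Finset.sum_le_sum h1).trans (le_of_eq ?_)
    rw [Finset.sum_const, Finset.card_range, nsmul_eq_mul, hm]
    ring
  have hvar : ∫ ω, (Z ω - m) ^ 2 ∂P ≤ m + η * m ^ 2 := by
    have h1 : ∀ ω, (Z ω - m) ^ 2 = Z ω ^ 2 - 2 * m * Z ω + m ^ 2 := fun ω => by ring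
    simp only [h1]
    have h2 : Integrable (fun ω => Z ω ^ 2 - 2 * m * Z ω) P := hZ2i.sub (hZi.const_mul (2 * m))
    rw [integral_add h2 (integrable_const _), integral_sub hZ2i (hZi.const_mul (2 * m)),
      integral_const_mul, hZI, integral_const, probReal_univ, one_smul]
    nlinarith
  obtain ⟨E, hE⟩ : ∃ E : Set Ω, E = {ω | ∀ k < K, ω ∉ A k} := ⟨_, rfl⟩
  have hEm : MeasurableSet E := by
    have h1 : E = ⋂ k ∈ range K, (A k)ᶜ := by
      rw [hE]
      ext ω
      simp
    rw [h1]
    exact Finset.measurableSet_biInter _ fun k hk => (hA k (Finset.mem_range.1 hk)).compl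
  have hEz : ∀ ω ∈ E, Z ω = 0 := by
    intro ω hω
    rw [hE] at hω
    rw [hZ]
    refine Finset.sum_eq_zero fun k hk => ?_
    rw [hf]
    exact Set.indicator_of_notMem (hω k (Finset.mem_range.1 hk)) _
  have hmark : m ^ 2 * P.real E ≤ m + η * m ^ 2 := by
    refine le_trans ?_ hvar
    have h1 : ∫ ω, E.indicator (fun _ => m ^ 2) ω ∂P = m ^ 2 * P.real E := by
      rw [integral_indicator_const _ hEm, smul_eq_mul, mul_comm]
    rw [← h1]
    have h3 : Integrable (fun ω => (Z ω - m) ^ 2) P := by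
      have h4 : ∀ ω, (Z ω - m) ^ 2 = Z ω ^ 2 - 2 * m * Z ω + m ^ 2 := fun ω => by ring
      simp only [h4]
      exact (hZ2i.sub (hZi.const_mul (2 * m))).add (integrable_const _)
    refine integral_mono ((integrable_const _).indicator hEm) h3 fun ω => ?_
    by_cases hω : ω ∈ E
    · simp only [Set.indicator_of_mem hω, hEz ω hω]
      nlinarith
    · simp only [Set.indicator_of_notMem hω]
      positivity
  rw [← hE]
  have hfin : P.real E ≤ 1 / (K * q) + η := by
    rw [← hm]
    have h1 : P.real E ≤ (m + η * m ^ 2) / m ^ 2 := by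
      rw [le_div_iff₀ (by positivity)]
      linarith
    refine h1.trans (le_of_eq ?_)
    field_simp
  rw [← ENNReal.ofReal_toReal (measure_ne_top P E)]
  exact ENNReal.ofReal_le_ofReal hfin

end Pool.Agent.H618.RO
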